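import Pool.Agent.TH1.Andre.Mat

/-!
Single-box functionals: evaluation of their orbit sums, separation of superclasses.
-/

set_option linter.unusedSectionVars false
set_option linter.style.haveILetI false
set_option linter.unusedVariables false

open scoped BigOperators Classical

noncomputable section

namespace Pool.Agent.TH1.Andre

section general

variable {F J G : Type} [Field F] [Fintype F] [AddCommGroup J] [Module F J] [Fintype J] [Group G]
  [Fintype G] (A : AlgGp F J G)

/-- averaging over the group instead of the orbit -/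
lemma AlgGp.avg (th : AddChar F ℂ) (l : Module.Dual F J) (g : G) :
    ((A.orb l).card : ℂ) * ∑ u : G, ∑ v : G, th (l (A.tw u v (A.e g))) =
      ((Fintype.card G : ℂ) * (Fintype.card G : ℂ)) * A.osum th l g := by
  have h1 : ∀ m ∈ A.orb l, ∑ u : G, ∑ v : G, th (m (A.tw u v (A.e g))) =
      ∑ u : G, ∑ v : G, th (l (A.tw u v (A.e g))) := by
    intro m hm
    obtain ⟨a, b, rfl⟩ := A.mem_orb.mp hm
    have h2 : ∀ u v, (l ∘ₗ A.tw a b) (A.tw u v (A.e g)) = l (A.tw (a * u) (v * b) (A.e g)) := by
      intro u v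
      rw [LinearMap.comp_apply, ← LinearMap.comp_apply (A.tw a b), A.tw_mul]
    simp only [h2]
    refine (Equiv.sum_comp (Equiv.mulLeft a)
      (fun u => ∑ v : G, th (l (A.tw u (v * b) (A.e g))))).trans ?_
    refine Finset.sum_congr rfl fun u _ => ?_
    exact Equiv.sum_comp (Equiv.mulRight b) (fun v => th (l (A.tw u v (A.e g))))
  have h3 : ∑ m ∈ A.orb l, ∑ u : G, ∑ v : G, th (m (A.tw u v (A.e g))) =
      ((A.orb l).card : ℂ) * ∑ u : G, ∑ v : G, th (l (A.tw u v (A.e g))) := by
    rw [Finset.sum_congr rfl h1, Finset.sum_const, nsmul_eq_mul]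
  rw [← h3, Finset.sum_comm]
  have h4 : ∀ u : G, ∑ m ∈ A.orb l, ∑ v : G, th (m (A.tw u v (A.e g))) =
      (Fintype.card G : ℂ) * A.osum th l g := by
    intro u
    rw [Finset.sum_comm]
    have h5 : ∀ v : G, ∑ m ∈ A.orb l, th (m (A.tw u v (A.e g))) = A.osum th l g := by
      intro v
      exact A.sum_orb l u v (fun m => th (m (A.e g)))
    rw [Finset.sum_congr rfl fun v _ => h5 v, Finset.sum_const, nsmul_eq_mul, Finset.card_univ]
  rw [Finset.sum_congr rfl fun u _ => h4 u, Finset.sum_const, nsmul_eq_mul, Finset.card_univ]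
  ring

end general

variable {n : ℕ} {F : Type} [Field F]

/-- The functional `y ↦ a * y i j` attached to a single box. -/
def box (i j : Fin n) (a : F) : Module.Dual F (nil n F) where
  toFun y := a * (y : Matrix (Fin n) (Fin n) F) i j
  map_add' x y := by simp [mul_add]
  map_smul' c x := by simp [mul_left_comm]

variable [Fintype F]

/-- elementary matrix -/
def elemU (i j : Fin n) (h : i < j) (t : F) : U n F :=
  mk ⟨Matrix.single i j t, by
    intro r s hsr
    rw [Matrix.single_apply, if_neg]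
    rintro ⟨rfl, rfl⟩
    exact absurd h (not_lt.mpr hsr)⟩

omit [Fintype F] in
lemma mat_elemU (i j : Fin n) (h : i < j) (t : F) :
    mat (elemU i j h t) = 1 + Matrix.single i j t := mat_mk _

lemma exists_scale {th : AddChar F ℂ} (hth : th ≠ 1) {c : F} (hc : c ≠ 0) : ∃ t : F,
    th (t * c) ≠ 1 := by
  obtain ⟨b, hb⟩ := AlgGp.exists_ne_one hth
  exact ⟨b / c, by rwa [div_mul_cancel₀ _ hc]⟩

/-- inner sum, zero case, on the right -/
lemma inner_zero {th : AddChar F ℂ} (hth : th ≠ 1) {j : Fin n} {a : F} (ha : a ≠ 0)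
    (w : Fin n → F) (l : Fin n) (hl : l < j) (hw : w l ≠ 0) :
    ∑ v : U n F, th (a * ∑ k, w k * mat v k j) = 0 := by
  obtain ⟨t, ht⟩ := exists_scale hth (mul_ne_zero ha hw)
  refine sum_zero_of_shift (Equiv.mulLeft (elemU l j hl t)) _ (th (t * (a * w l))) ht fun v => ?_
  rw [Equiv.coe_mulLeft, mat_mul, mat_elemU, ← AddChar.map_add_eq_mul]
  congr 1
  have : ∀ k, ((1 + Matrix.single l j t) * mat v) k j = mat v k j + (if k = l then t else 0) := by
    intro k
    rw [add_mul, one_mul, Matrix.add_apply]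
    congr 1
    by_cases hk : k = l
    · subst hk
      rw [Matrix.single_mul_apply_same, mat_diag, mul_one, if_pos rfl]
    · rw [Matrix.single_mul_apply_of_ne _ _ _ _ _ hk, if_neg hk]
  simp only [this, mul_add, Finset.sum_add_distrib]
  simp
  ring

/-- inner sum, zero case, on the left -/
lemma inner_zero' {th : AddChar F ℂ} (hth : th ≠ 1) {i : Fin n} {a : F} (ha : a ≠ 0)
    (w : Fin n → F) (l : Fin n) (hl : i < l) (hw : w l ≠ 0) :
    ∑ u : U n F, th (a * ∑ k, mat u i k * w k) = 0 := by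
  obtain ⟨t, ht⟩ := exists_scale hth (mul_ne_zero ha hw)
  refine sum_zero_of_shift (Equiv.mulRight (elemU i l hl t)) _ (th (t * (a * w l))) ht fun u => ?_
  rw [Equiv.coe_mulRight, mat_mul, mat_elemU, ← AddChar.map_add_eq_mul]
  congr 1
  have : ∀ k, (mat u * (1 + Matrix.single i l t)) i k = mat u i k + (if k = l then t else 0) := by
    intro k
    rw [mul_add, mul_one, Matrix.add_apply]
    congr 1
    by_cases hk : k = l
    · subst hk
      rw [Matrix.mul_single_apply_same, mat_diag, one_mul, if_pos rfl]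
    · rw [Matrix.mul_single_apply_of_ne _ _ _ _ _ hk, if_neg hk]
  simp only [this, add_mul, Finset.sum_add_distrib]
  simp
  ring

/-- inner sum, nonzero case -/
lemma inner_const (th : AddChar F ℂ) {j : Fin n} (a : F) (w : Fin n → F)
    (hw : ∀ l, l < j → w l = 0) :
    ∑ v : U n F, th (a * ∑ k, w k * mat v k j) = (Fintype.card (U n F) : ℂ) * th (a * w j) := by
  have : ∀ v : U n F, ∑ k, w k * mat v k j = w j := by
    intro v
    rw [Finset.sum_eq_single j]
    · rw [mat_diag, mul_one]
    · intro k _ hk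
      rcases lt_or_gt_of_ne hk with h | h
      · rw [hw k h, zero_mul]
      · rw [mat_low v h, mul_zero]
    · intro h; exact absurd (Finset.mem_univ _) h
  simp only [this, Finset.sum_const, Finset.card_univ, nsmul_eq_mul]

/-- The average over the group. -/
def Phi (th : AddChar F ℂ) (i j : Fin n) (a : F) (y : Matrix (Fin n) (Fin n) F) : ℂ :=
  ∑ u : U n F, ∑ v : U n F, th (a * (mat u * y * mat v) i j)

lemma Phi_eq (th : AddChar F ℂ) (i j : Fin n) (a : F) (y : Matrix (Fin n) (Fin n) F) :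
    Phi th i j a y = ∑ u : U n F, ∑ v : U n F, th (a * ∑ k, (mat u * y) i k * mat v k j) := rfl

lemma Phi_eq' (th : AddChar F ℂ) (i j : Fin n) (a : F) (y : Matrix (Fin n) (Fin n) F) :
    Phi th i j a y = ∑ v : U n F, ∑ u : U n F, th (a * ∑ k, mat u i k * (y * mat v) k j) := by
  unfold Phi
  rw [Finset.sum_comm]
  refine Finset.sum_congr rfl fun v _ => Finset.sum_congr rfl fun u _ => ?_
  rw [mul_assoc, Matrix.mul_apply]

lemma Phi_zero_row {th : AddChar F ℂ} (hth : th ≠ 1) {i j l : Fin n} {a : F} (ha : a ≠ 0)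
    (y : Matrix (Fin n) (Fin n) F) (hl : l < j) (h0 : y i l ≠ 0) (h1 : ∀ r, r ≠ i → y r l = 0) :
    Phi th i j a y = 0 := by
  rw [Phi_eq]
  refine Finset.sum_eq_zero fun u _ => ?_
  refine inner_zero hth ha _ l hl ?_
  rw [Matrix.mul_apply, Finset.sum_eq_single i]
  · rw [mat_diag, one_mul]; exact h0
  · intro r _ hr
    rw [h1 r hr, mul_zero]
  · intro h; exact absurd (Finset.mem_univ _) h

lemma Phi_zero_col {th : AddChar F ℂ} (hth : th ≠ 1) {i j l : Fin n} {a : F} (ha : a ≠ 0)
    (y : Matrix (Fin n) (Fin n) F) (hl : i < l) (h0 : y l j ≠ 0) (h1 : ∀ r, r ≠ j → y l r = 0) :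
    Phi th i j a y = 0 := by
  rw [Phi_eq']
  refine Finset.sum_eq_zero fun u _ => ?_
  refine inner_zero' hth ha _ l hl ?_
  rw [Matrix.mul_apply, Finset.sum_eq_single j]
  · rw [mat_diag, mul_one]; exact h0
  · intro r _ hr
    rw [h1 r hr, zero_mul]
  · intro h; exact absurd (Finset.mem_univ _) h

/-- number of admissible `u` -/
def cnt (i j : Fin n) (y : Matrix (Fin n) (Fin n) F) : ℕ :=
  (Finset.univ.filter fun u : U n F => ∀ l, l < j → (mat u * y) i l = 0).card

lemma Phi_main {th : AddChar F ℂ} (hth : th ≠ 1) {i j : Fin n} {a : F} (ha : a ≠ 0)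
    (y : Matrix (Fin n) (Fin n) F) (hcol : ∀ k, i < k → y k j = 0) :
    Phi th i j a y = (Fintype.card (U n F) : ℂ) * (cnt i j y : ℂ) * th (a * y i j) := by
  rw [Phi_eq]
  have h1 : ∀ u : U n F, ∑ v : U n F, th (a * ∑ k, (mat u * y) i k * mat v k j) =
      if (∀ l, l < j → (mat u * y) i l = 0) then (Fintype.card (U n F) : ℂ) * th (a * y i j)
      else 0 := by
    intro u
    split_ifs with h
    · rw [inner_const th a _ h]
      congr 3
      rw [Matrix.mul_apply, Finset.sum_eq_single i]
      · rw [mat_diag, one_mul]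
      · intro k _ hk
        rcases lt_or_gt_of_ne hk with h2 | h2
        · rw [mat_low u h2, zero_mul]
        · rw [hcol k h2, mul_zero]
      · intro h; exact absurd (Finset.mem_univ _) h
    · push Not at h
      obtain ⟨l, hl, h2⟩ := h
      exact inner_zero hth ha _ l hl h2
  rw [Finset.sum_congr rfl fun u _ => h1 u, ← Finset.sum_filter, Finset.sum_const, nsmul_eq_mul]
  unfold cnt
  ring

lemma cnt_pos (i j : Fin n) (y : Matrix (Fin n) (Fin n) F) (hrow : ∀ l, l < j → y i l = 0) :
    0 < cnt i j y := by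
  apply Finset.card_pos.mpr
  refine ⟨1, Finset.mem_filter.mpr ⟨Finset.mem_univ _, ?_⟩⟩
  intro l hl
  rw [mat_one, one_mul]
  exact hrow l hl

lemma norm_th (th : AddChar F ℂ) (x : F) : ‖th x‖ = 1 := AddChar.norm_apply th x

/-- if the averages agree, an entry of a reduced matrix is an entry of the other one -/
lemma entry_eq {th : AddChar F ℂ} (hth : th ≠ 1) (y z : Matrix (Fin n) (Fin n) F)
    (hy : Red n y) (hz : Red n z)
    (h : ∀ i j : Fin n, i < j → ∀ a : F, a ≠ 0 → Phi th i j a y = Phi th i j a z)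
    (i j : Fin n) (hij : i < j) (hne : y i j ≠ 0) : z i j = y i j := by
  obtain ⟨h1, h2⟩ := hy j j.2 i hne
  have hPy : ∀ a : F, a ≠ 0 → Phi th i j a y =
      (Fintype.card (U n F) : ℂ) * (cnt i j y : ℂ) * th (a * y i j) := fun a ha =>
    Phi_main hth ha y (fun k hk => h2 k hk.ne')
  have hcy : 0 < cnt i j y := cnt_pos i j y fun l hl => h1 l hl.ne
  have hG : (Fintype.card (U n F) : ℂ) ≠ 0 := by
    exact_mod_cast (Fintype.card_pos (α := U n F)).ne'
  have hyne : ∀ a : F, a ≠ 0 → Phi th i j a y ≠ 0 := by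
    intro a ha
    rw [hPy a ha]
    refine mul_ne_zero (mul_ne_zero hG (by exact_mod_cast hcy.ne')) ?_
    intro h0
    have := norm_th th (a * y i j)
    rw [h0, norm_zero] at this
    exact zero_ne_one this
  -- z has no obstruction
  have hzrow : ∀ l, l < j → z i l = 0 := by
    intro l hl
    by_contra hzl
    obtain ⟨_, h4⟩ := hz l l.2 i hzl
    have := Phi_zero_row hth (one_ne_zero : (1 : F) ≠ 0) z hl hzl (fun r hr => h4 r hr)
    exact hyne 1 one_ne_zero ((h i j hij 1 one_ne_zero).trans this)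
  have hzcol : ∀ k, i < k → z k j = 0 := by
    intro k hk
    by_contra hzk
    obtain ⟨h3, _⟩ := hz j j.2 k hzk
    have := Phi_zero_col hth (one_ne_zero : (1 : F) ≠ 0) z hk hzk (fun r hr => h3 r hr)
    exact hyne 1 one_ne_zero ((h i j hij 1 one_ne_zero).trans this)
  have hPz : ∀ a : F, a ≠ 0 → Phi th i j a z =
      (Fintype.card (U n F) : ℂ) * (cnt i j z : ℂ) * th (a * z i j) := fun a ha =>
    Phi_main hth ha z hzcol
  have heq : ∀ a : F, a ≠ 0 → (cnt i j y : ℂ) * th (a * y i j) = (cnt i j z : ℂ) * th (a * z i j) := by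
    intro a ha
    have := h i j hij a ha
    rw [hPy a ha, hPz a ha, mul_assoc, mul_assoc] at this
    exact mul_left_cancel₀ hG this
  have hc : (cnt i j y : ℂ) = (cnt i j z : ℂ) := by
    have h5 := congrArg norm (heq 1 one_ne_zero)
    rw [norm_mul, norm_mul, norm_th, norm_th, mul_one, mul_one, Complex.norm_natCast,
      Complex.norm_natCast] at h5
    exact_mod_cast h5
  have hth2 : ∀ a : F, a ≠ 0 → th (a * y i j) = th (a * z i j) := by
    intro a ha
    have := heq a ha
    rw [← hc] at this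
    exact mul_left_cancel₀ (by exact_mod_cast hcy.ne') this
  by_contra hne2
  have hd : y i j - z i j ≠ 0 := fun h0 => hne2 (sub_eq_zero.mp h0).symm
  obtain ⟨t, ht⟩ := exists_scale hth hd
  have ht0 : t ≠ 0 := by
    rintro rfl
    apply ht
    simp
  apply ht
  rw [mul_sub, AddChar.map_sub_eq_div, hth2 t ht0, div_self]
  intro h0
  have := norm_th th (t * z i j)
  rw [h0, norm_zero] at this
  exact zero_ne_one this

lemma reduced_eq {th : AddChar F ℂ} (hth : th ≠ 1) (y z : Matrix (Fin n) (Fin n) F)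
    (hyn : y ∈ nil n F) (hzn : z ∈ nil n F) (hy : Red n y) (hz : Red n z)
    (h : ∀ i j : Fin n, i < j → ∀ a : F, a ≠ 0 → Phi th i j a y = Phi th i j a z) : y = z := by
  ext i j
  by_cases hij : i < j
  · by_cases h1 : y i j = 0
    · by_cases h2 : z i j = 0
      · rw [h1, h2]
      · exact entry_eq hth z y hz hy (fun i j hij a ha => (h i j hij a ha).symm) i j hij h2
    · exact (entry_eq hth y z hy hz h i j hij h1).symm
  · rw [hyn i j (not_lt.mp hij), hzn i j (not_lt.mp hij)]

lemma Phi_osum (th : AddChar F ℂ) (i j : Fin n) (a : F) (g : U n F) :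
    (((AU n F).orb (box i j a)).card : ℂ) * Phi th i j a (mat g - 1) =
      ((Fintype.card (U n F) : ℂ) * (Fintype.card (U n F) : ℂ)) * (AU n F).osum th (box i j a) g :=
  (AU n F).avg th (box i j a) g

lemma Phi_tw (th : AddChar F ℂ) (i j : Fin n) (a : F) (y : Matrix (Fin n) (Fin n) F)
    (p q : U n F) : Phi th i j a (mat p * y * mat q) = Phi th i j a y := by
  unfold Phi
  have h : ∀ u v : U n F, mat u * (mat p * y * mat q) * mat v = mat (u * p) * y * mat (q * v) := by
    intro u v
    rw [mat_mul, mat_mul]; noncomm_ring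
  simp only [h]
  refine (Equiv.sum_comp (Equiv.mulRight p)
    (fun u => ∑ v : U n F, th (a * (mat u * y * mat (q * v)) i j))).trans ?_
  refine Finset.sum_congr rfl fun u _ => ?_
  exact Equiv.sum_comp (Equiv.mulLeft q) (fun v => th (a * (mat u * y * mat v) i j))

/-- **Separation**: the single-box orbit sums determine the superclass. -/
theorem separate {th : AddChar F ℂ} (hth : th ≠ 1) (g h : U n F)
    (hgh : ∀ i j : Fin n, i < j → ∀ a : F, a ≠ 0 →
      (AU n F).osum th (box i j a) g = (AU n F).osum th (box i j a) h) :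
    ∃ u v : U n F, mat h - 1 = mat u * (mat g - 1) * mat v := by
  have hPhi : ∀ i j : Fin n, i < j → ∀ a : F, a ≠ 0 →
      Phi th i j a (mat g - 1) = Phi th i j a (mat h - 1) := by
    intro i j hij a ha
    have h1 := Phi_osum th i j a g
    have h2 := Phi_osum th i j a h
    rw [hgh i j hij a ha, ← h2] at h1
    have h3 : (((AU n F).orb (box i j a)).card : ℂ) ≠ 0 := by
      have : 0 < ((AU n F).orb (box i j a)).card :=
        Finset.card_pos.mpr ⟨_, (AU n F).self_mem_orb _⟩
      exact_mod_cast this.ne'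
    exact mul_left_cancel₀ h3 h1
  obtain ⟨u, v, hr⟩ := elim_all (mat g - 1) g.2 n le_rfl
  obtain ⟨u', v', hr'⟩ := elim_all (mat h - 1) h.2 n le_rfl
  have heq := reduced_eq hth _ _ (nil_mul_U v (U_mul_nil u g.2)) (nil_mul_U v' (U_mul_nil u' h.2))
    hr hr' (by
      intro i j hij a ha
      rw [Phi_tw, Phi_tw]
      exact hPhi i j hij a ha)
  refine ⟨u'⁻¹ * u, v * v'⁻¹, ?_⟩
  have h1 : mat (u'⁻¹ * u) * (mat g - 1) * mat (v * v'⁻¹) =
      mat u'⁻¹ * (mat u * (mat g - 1) * mat v) * mat v'⁻¹ := by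
    rw [mat_mul, mat_mul]; noncomm_ring
  rw [h1, heq]
  have h2 : mat u'⁻¹ * (mat u' * (mat h - 1) * mat v') * mat v'⁻¹ =
      (mat u'⁻¹ * mat u') * (mat h - 1) * (mat v' * mat v'⁻¹) := by noncomm_ring
  rw [h2, mat_inv_mul, mat_mul_inv, one_mul, mul_one]

end Pool.Agent.TH1.Andre
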