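import Pool.Agent.TH1.Andre.Scal

/-!
Supercharacters of algebra groups, abstractly: `J` a finite vector space, `G` a finite group with a
bijection `e : G ≃ J` (think of `g ↦ g - 1`) and two-sided multiplication maps `tw u v : J → J`
(think of `x ↦ u x v`).
-/

set_option linter.unusedSectionVars false
set_option linter.style.haveILetI false

open scoped BigOperators Classical
open Representation
open Pool.Agent.Helper884.IC (IsIrrChar B IsClass cardG_ne isClass_char Top_zero_of_irr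
  class_eq_zero B_add_left B_smul_left B_comm B_sum_left B_sub_left B_irr irr_finite Irr mem_Irr
  expand B_expand)

noncomputable section

namespace Pool.Agent.TH1.Andre

lemma sum_zero_of_shift {A : Type*} [Fintype A] (s : A ≃ A) (f : A → ℂ) (c : ℂ) (hc : c ≠ 1)
    (h : ∀ x, f (s x) = c * f x) : ∑ x, f x = 0 := by
  have h1 : ∑ x, f (s x) = ∑ x, f x := Equiv.sum_comp s f
  simp only [h, ← Finset.mul_sum] at h1
  have h2 : (c - 1) * ∑ x, f x = 0 := by linear_combination h1
  rcases mul_eq_zero.mp h2 with h3 | h3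
  · exact absurd (sub_eq_zero.mp h3) hc
  · exact h3

/-- abstract algebra groups -/
structure AlgGp (F J G : Type) [Field F] [AddCommGroup J] [Module F J] [Group G] where
  e : G ≃ J
  tw : G → G → J →ₗ[F] J
  tw_one : tw 1 1 = LinearMap.id
  tw_mul : ∀ u v u' v', tw u v ∘ₗ tw u' v' = tw (u * u') (v' * v)
  e_one : e 1 = 0
  e_mul : ∀ g h, e (g⁻¹ * h) = tw g⁻¹ 1 (e h - e g)
  e_conj : ∀ h g, e (h * g * h⁻¹) = tw h h⁻¹ (e g)

variable {F J G : Type} [Field F] [Fintype F] [AddCommGroup J] [Module F J] [Fintype J] [Group G]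
  [Fintype G] (A : AlgGp F J G)

instance finDual : Finite (Module.Dual F J) :=
  Finite.of_injective (fun f : Module.Dual F J => (f : J → F)) DFunLike.coe_injective

instance fintDual : Fintype (Module.Dual F J) := Fintype.ofFinite _

namespace AlgGp

lemma tw_inv_left (u v : G) : A.tw u v ∘ₗ A.tw u⁻¹ v⁻¹ = LinearMap.id := by
  rw [A.tw_mul, mul_inv_cancel, inv_mul_cancel, A.tw_one]

lemma tw_inv_right (u v : G) : A.tw u⁻¹ v⁻¹ ∘ₗ A.tw u v = LinearMap.id := by
  rw [A.tw_mul, inv_mul_cancel, mul_inv_cancel, A.tw_one]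

/-- the equivalence of the dual given by `mu ↦ mu ∘ tw u v` -/
def dtw (u v : G) : Module.Dual F J ≃ Module.Dual F J where
  toFun m := m ∘ₗ A.tw u v
  invFun m := m ∘ₗ A.tw u⁻¹ v⁻¹
  left_inv m := by
    show (m ∘ₗ A.tw u v) ∘ₗ A.tw u⁻¹ v⁻¹ = m
    rw [LinearMap.comp_assoc, A.tw_inv_left]; rfl
  right_inv m := by
    show (m ∘ₗ A.tw u⁻¹ v⁻¹) ∘ₗ A.tw u v = m
    rw [LinearMap.comp_assoc, A.tw_inv_right]; rfl

/-- two-sided orbit in the dual -/
def orb (l : Module.Dual F J) : Finset (Module.Dual F J) :=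
  Finset.univ.filter fun m => ∃ u v, m = l ∘ₗ A.tw u v

lemma mem_orb {l m : Module.Dual F J} : m ∈ A.orb l ↔ ∃ u v, m = l ∘ₗ A.tw u v := by
  simp [orb]

lemma self_mem_orb (l : Module.Dual F J) : l ∈ A.orb l :=
  A.mem_orb.mpr ⟨1, 1, by rw [A.tw_one]; rfl⟩

lemma orb_trans {l m k : Module.Dual F J} (h1 : m ∈ A.orb l) (h2 : k ∈ A.orb m) :
    k ∈ A.orb l := by
  obtain ⟨u, v, rfl⟩ := A.mem_orb.mp h1
  obtain ⟨u', v', rfl⟩ := A.mem_orb.mp h2
  refine A.mem_orb.mpr ⟨u * u', v' * v, ?_⟩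
  rw [LinearMap.comp_assoc, A.tw_mul]

lemma orb_symm {l m : Module.Dual F J} (h : m ∈ A.orb l) : l ∈ A.orb m := by
  obtain ⟨u, v, rfl⟩ := A.mem_orb.mp h
  refine A.mem_orb.mpr ⟨u⁻¹, v⁻¹, ?_⟩
  rw [LinearMap.comp_assoc, A.tw_inv_left]; rfl

lemma orb_eq {l m : Module.Dual F J} (h : m ∈ A.orb l) : A.orb m = A.orb l := by
  ext k
  exact ⟨fun hk => A.orb_trans h hk, fun hk => A.orb_trans (A.orb_symm h) hk⟩

lemma orb_disj {l m : Module.Dual F J} (h : A.orb l ≠ A.orb m) :
    Disjoint (A.orb l) (A.orb m) := by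
  rw [Finset.disjoint_left]
  intro k h1 h2
  exact h ((A.orb_eq h1).symm.trans (A.orb_eq h2))

lemma sum_orb (l : Module.Dual F J) (u v : G) (f : Module.Dual F J → ℂ) :
    ∑ m ∈ A.orb l, f (m ∘ₗ A.tw u v) = ∑ m ∈ A.orb l, f m := by
  refine Finset.sum_equiv (A.dtw u v) ?_ ?_
  · intro m
    constructor
    · intro h
      exact A.orb_trans h (A.mem_orb.mpr ⟨u, v, rfl⟩)
    · intro h
      refine A.orb_trans h (A.orb_symm (A.mem_orb.mpr ⟨u, v, rfl⟩))
  · intro m _
    rfl

variable (th : AddChar F ℂ)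

/-- the orbit sum -/
def osum (l : Module.Dual F J) (g : G) : ℂ := ∑ m ∈ A.orb l, th (m (A.e g))

lemma osum_congr {l m : Module.Dual F J} (h : A.orb l = A.orb m) : A.osum th l = A.osum th m := by
  funext g; unfold osum; rw [h]

lemma osum_one (l : Module.Dual F J) : A.osum th l 1 = ((A.orb l).card : ℂ) := by
  unfold osum
  rw [A.e_one]
  simp

lemma osum_tw (l : Module.Dual F J) (u v : G) (g h : G) (he : A.e h = A.tw u v (A.e g)) :
    A.osum th l h = A.osum th l g := by
  unfold osum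
  rw [he]
  exact A.sum_orb l u v (fun m => th (m (A.e g)))

lemma osum_class (l : Module.Dual F J) : IsClass (A.osum th l) := by
  intro g y
  exact A.osum_tw th l y y⁻¹ g _ (A.e_conj y g)

variable {th}

lemma exists_ne_one (hth : th ≠ 1) : ∃ a : F, th a ≠ 1 := by
  by_contra h
  push Not at h
  apply hth
  ext a
  rw [h a]; rfl

lemma sum_J (hth : th ≠ 1) (m : Module.Dual F J) :
    ∑ x : J, th (m x) = if m = 0 then (Fintype.card J : ℂ) else 0 := by
  split_ifs with h
  · subst h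
    simp
  · obtain ⟨a, ha⟩ := exists_ne_one hth
    obtain ⟨x, hx⟩ : ∃ x, m x ≠ 0 := by
      by_contra hc
      push Not at hc
      exact h (LinearMap.ext hc)
    refine sum_zero_of_shift (Equiv.addRight ((a / m x) • x)) _ (th a) ha fun y => ?_
    simp only [Equiv.coe_addRight, map_add, map_smul, smul_eq_mul, AddChar.map_add_eq_mul]
    rw [div_mul_cancel₀ _ hx, mul_comm]

lemma sum_dual_zero (hth : th ≠ 1) {x : J} (hx : x ≠ 0) :
    ∑ m : Module.Dual F J, th (m x) = 0 := by
  obtain ⟨a, ha⟩ := exists_ne_one hth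
  obtain ⟨m, hm⟩ : ∃ m : Module.Dual F J, m x ≠ 0 := by
    by_contra hc
    push Not at hc
    exact hx ((Module.forall_dual_apply_eq_zero_iff F x).mp hc)
  refine sum_zero_of_shift (Equiv.addRight ((a / m x) • m)) _ (th a) ha fun y => ?_
  simp only [Equiv.coe_addRight, LinearMap.add_apply, LinearMap.smul_apply, smul_eq_mul,
    AddChar.map_add_eq_mul]
  rw [div_mul_cancel₀ _ hm, mul_comm]

lemma card_dual : Fintype.card (Module.Dual F J) = Fintype.card J := by
  have h1 := Module.card_eq_pow_finrank (K := F) (V := Module.Dual F J)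
  have h2 := Module.card_eq_pow_finrank (K := F) (V := J)
  rw [Subspace.dual_finrank_eq] at h1
  rw [h1, h2]

theorem conv_osum (hth : th ≠ 1) (l k : Module.Dual F J) (h : G) :
    conv (A.osum th l) (A.osum th k) h =
      (Fintype.card J : ℂ) * ∑ m ∈ A.orb l ∩ A.orb k, th (m (A.e h)) := by
  unfold conv
  have h1 : ∀ g : G, A.osum th l g * A.osum th k (g⁻¹ * h) =
      ∑ m ∈ A.orb l, ∑ m' ∈ A.orb k, th (m' (A.e h)) * th ((m - m') (A.e g)) := by
    intro g
    have h2 : A.osum th k (g⁻¹ * h) = ∑ m' ∈ A.orb k, th (m' (A.e h - A.e g)) := by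
      unfold osum
      rw [A.e_mul]
      exact A.sum_orb k g⁻¹ 1 (fun m => th (m (A.e h - A.e g)))
    rw [h2]
    unfold osum
    rw [Finset.sum_mul_sum]
    refine Finset.sum_congr rfl fun m _ => Finset.sum_congr rfl fun m' _ => ?_
    rw [← AddChar.map_add_eq_mul, ← AddChar.map_add_eq_mul]
    congr 1
    simp only [map_sub, LinearMap.sub_apply]
    ring
  rw [Finset.sum_congr rfl fun g _ => h1 g, Finset.sum_comm]
  have h3 : ∀ m ∈ A.orb l, ∑ g : G, ∑ m' ∈ A.orb k, th (m' (A.e h)) * th ((m - m') (A.e g)) =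
      if m ∈ A.orb k then (Fintype.card J : ℂ) * th (m (A.e h)) else 0 := by
    intro m _
    rw [Finset.sum_comm]
    have h4 : ∀ m' ∈ A.orb k, ∑ g : G, th (m' (A.e h)) * th ((m - m') (A.e g)) =
        if m' = m then (Fintype.card J : ℂ) * th (m (A.e h)) else 0 := by
      intro m' _
      rw [← Finset.mul_sum, Equiv.sum_comp A.e (fun x => th ((m - m') x)), sum_J hth]
      by_cases hm : m' = m
      · subst hm
        simp [mul_comm]
      · rw [if_neg hm, if_neg (fun h0 => hm (sub_eq_zero.mp h0).symm), mul_zero]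
    rw [Finset.sum_congr rfl h4, Finset.sum_ite_eq']
  rw [Finset.sum_congr rfl h3, Finset.mul_sum, ← Finset.sum_filter]
  refine Finset.sum_congr ?_ fun _ _ => rfl
  ext m
  simp

end AlgGp

end Pool.Agent.TH1.Andre
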