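import Pool.Agent.TH1.Andre.Gen

set_option linter.unusedSectionVars false
set_option linter.style.haveILetI false

open scoped BigOperators Classical
open Representation
open Pool.Agent.Helper884.IC (IsIrrChar B IsClass cardG_ne isClass_char Top_zero_of_irr
  class_eq_zero B_add_left B_smul_left B_comm B_sum_left B_sub_left B_irr irr_finite Irr mem_Irr
  expand B_expand)

noncomputable section

namespace Pool.Agent.TH1.Andre

variable {F J G : Type} [Field F] [Fintype F] [AddCommGroup J] [Module F J] [Fintype J] [Group G]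
  [Fintype G] (A : AlgGp F J G) {th : AddChar F ℂ}

namespace AlgGp

include A in
lemma card_eq : Fintype.card J = Nat.card G := by
  rw [Nat.card_eq_fintype_card]
  exact (Fintype.card_congr A.e).symm

lemma conv_self (hth : th ≠ 1) (l : Module.Dual F J) :
    conv (A.osum th l) (A.osum th l) = (Nat.card G : ℂ) • A.osum th l := by
  funext h
  rw [A.conv_osum hth, Finset.inter_self, ← A.card_eq]
  rfl

lemma conv_ne (hth : th ≠ 1) {l k : Module.Dual F J} (h : A.orb l ≠ A.orb k) :
    conv (A.osum th l) (A.osum th k) = 0 := by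
  funext g
  rw [A.conv_osum hth, Finset.disjoint_iff_inter_eq_empty.mp (A.orb_disj h)]
  simp

lemma B_cases (hth : th ≠ 1) (l : Module.Dual F J) {chi : G → ℂ} (hchi : IsIrrChar chi) :
    B (A.osum th l) chi = 0 ∨ B (A.osum th l) chi = chi 1 := by
  have h := B_conv (A.osum_class th l) (A.osum_class th l) hchi
  rw [A.conv_self hth, B_smul_left] at h
  have hG : (Nat.card G : ℂ) ≠ 0 := cardG_ne
  have h2 : (Nat.card G : ℂ) * (B (A.osum th l) chi * (B (A.osum th l) chi - chi 1)) = 0 := by
    linear_combination -h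
  rcases mul_eq_zero.mp h2 with h3 | h3
  · exact absurd h3 hG
  · rcases mul_eq_zero.mp h3 with h4 | h4
    · exact Or.inl h4
    · exact Or.inr (sub_eq_zero.mp h4)

lemma B_mul (hth : th ≠ 1) {l k : Module.Dual F J} (h : A.orb l ≠ A.orb k) {chi : G → ℂ}
    (hchi : IsIrrChar chi) : B (A.osum th l) chi = 0 ∨ B (A.osum th k) chi = 0 := by
  have h1 := B_conv (A.osum_class th l) (A.osum_class th k) hchi
  rw [A.conv_ne hth h] at h1
  have hG : (Nat.card G : ℂ) ≠ 0 := cardG_ne
  have h0 : B (0 : G → ℂ) chi = 0 := by simp [B]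
  rw [h0, zero_mul] at h1
  rcases mul_eq_zero.mp h1.symm with h3 | h3
  · exact absurd h3 hG
  · exact mul_eq_zero.mp h3

lemma sum_osum (hth : th ≠ 1) :
    ∑ l : Module.Dual F J, ((A.orb l).card : ℂ)⁻¹ • A.osum th l = (Nat.card G : ℂ) • delta := by
  funext g
  rw [Finset.sum_apply]
  have h1 : ∀ l : Module.Dual F J, (((A.orb l).card : ℂ)⁻¹ • A.osum th l) g =
      ∑ m : Module.Dual F J, if m ∈ A.orb l then ((A.orb m).card : ℂ)⁻¹ * th (m (A.e g)) else 0 := by
    intro l
    simp only [Pi.smul_apply, smul_eq_mul]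
    unfold osum
    rw [Finset.mul_sum, ← Finset.sum_filter]
    have hfil : (Finset.univ.filter fun m => m ∈ A.orb l) = A.orb l := by
      ext m
      simp only [Finset.mem_filter, Finset.mem_univ, true_and]
    rw [hfil]
    refine Finset.sum_congr rfl ?_
    intro m hm
    rw [A.orb_eq hm]
  rw [Finset.sum_congr rfl fun l _ => h1 l, Finset.sum_comm]
  have h2 : ∀ m : Module.Dual F J, ∑ l : Module.Dual F J,
      (if m ∈ A.orb l then ((A.orb m).card : ℂ)⁻¹ * th (m (A.e g)) else 0) = th (m (A.e g)) := by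
    intro m
    rw [← Finset.sum_filter]
    have : (Finset.univ.filter fun l => m ∈ A.orb l) = A.orb m := by
      ext l
      simp only [Finset.mem_filter, Finset.mem_univ, true_and]
      exact ⟨fun h => A.orb_symm h, fun h => A.orb_symm h⟩
    rw [this, Finset.sum_const, nsmul_eq_mul, ← mul_assoc, mul_inv_cancel₀, one_mul]
    have : 0 < (A.orb m).card := Finset.card_pos.mpr ⟨m, A.self_mem_orb m⟩
    exact_mod_cast this.ne'
  rw [Finset.sum_congr rfl fun m _ => h2 m]
  simp only [Pi.smul_apply, smul_eq_mul]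
  unfold delta
  by_cases hg : g = 1
  · rw [if_pos hg, hg, A.e_one]
    simp only [map_zero, AddChar.map_zero_eq_one, Finset.sum_const, Finset.card_univ, nsmul_eq_mul,
      mul_one]
    rw [card_dual, A.card_eq]
  · rw [if_neg hg, mul_zero]
    apply sum_dual_zero hth
    intro h0
    apply hg
    apply A.e.injective
    rw [h0, A.e_one]

lemma exists_B_ne (hth : th ≠ 1) {chi : G → ℂ} (hchi : IsIrrChar chi) :
    ∃ l : Module.Dual F J, B (A.osum th l) chi ≠ 0 := by
  by_contra hc
  push Not at hc
  have h1 : B _ chi = B _ chi := congrArg (fun f => B f chi) (A.sum_osum hth)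
  rw [B_sum_left, B_smul_left, B_delta] at h1
  have h2 : ∑ i : Module.Dual F J, B (((A.orb i).card : ℂ)⁻¹ • A.osum th i) chi = 0 := by
    refine Finset.sum_eq_zero fun i _ => ?_
    rw [B_smul_left, hc i, mul_zero]
  rw [h2] at h1
  have hG : (Nat.card G : ℂ) ≠ 0 := cardG_ne
  rw [← mul_assoc, mul_inv_cancel₀ hG, one_mul] at h1
  exact char_one_ne hchi h1.symm

/-- the block of irreducible characters attached to a functional -/
def X (th : AddChar F ℂ) (l : Module.Dual F J) : Set (G → ℂ) :=
  {chi | IsIrrChar chi ∧ B (A.osum th l) chi ≠ 0}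

lemma osum_expand (hth : th ≠ 1) (l : Module.Dual F J) (g : G) :
    A.osum th l g = ∑ᶠ chi ∈ A.X th l, chi 1 * chi g := by
  have hfin : (A.X th l).Finite := irr_finite.subset fun chi h => h.1
  rw [finsum_mem_eq_finite_toFinset_sum _ hfin]
  conv_lhs => rw [expand (A.osum th l) (A.osum_class th l)]
  rw [Finset.sum_apply]
  have hsub : hfin.toFinset ⊆ Irr G := by
    intro chi h
    rw [Set.Finite.mem_toFinset] at h
    exact mem_Irr.mpr h.1
  rw [← Finset.sum_subset hsub]
  · refine Finset.sum_congr rfl fun chi h => ?_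
    rw [Set.Finite.mem_toFinset] at h
    rcases A.B_cases hth l h.1 with h1 | h1
    · exact absurd h1 h.2
    · simp [h1]
  · intro chi h1 h2
    rw [Set.Finite.mem_toFinset] at h2
    have : B (A.osum th l) chi = 0 := by
      by_contra h3
      exact h2 ⟨mem_Irr.mp h1, h3⟩
    simp [this]

lemma X_nonempty (hth : th ≠ 1) (l : Module.Dual F J) : (A.X th l).Nonempty := by
  by_contra hc
  rw [Set.not_nonempty_iff_eq_empty] at hc
  have h := A.osum_expand hth l 1
  rw [hc, osum_one] at h
  simp only [Set.mem_empty_iff_false, finsum_false, finsum_zero, Nat.cast_eq_zero] at h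
  have : 0 < (A.orb l).card := Finset.card_pos.mpr ⟨l, A.self_mem_orb l⟩
  omega

lemma X_eq_iff (hth : th ≠ 1) (l k : Module.Dual F J) :
    A.X th l = A.X th k ↔ A.orb l = A.orb k := by
  constructor
  · intro h
    by_contra hne
    obtain ⟨chi, hchi⟩ := A.X_nonempty hth l
    have h2 : chi ∈ A.X th k := h ▸ hchi
    rcases A.B_mul hth hne hchi.1 with h3 | h3
    · exact hchi.2 h3
    · exact h2.2 h3
  · intro h
    unfold X
    rw [A.osum_congr th h]

lemma X_disj (hth : th ≠ 1) (l k : Module.Dual F J) (chi : G → ℂ) (h1 : chi ∈ A.X th l)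
    (h2 : chi ∈ A.X th k) : A.X th l = A.X th k := by
  rw [A.X_eq_iff hth]
  by_contra hne
  rcases A.B_mul hth hne h1.1 with h3 | h3
  · exact h1.2 h3
  · exact h2.2 h3

/-! ### Number of orbits -/

/-- the action of `G × G` on `J` -/
@[instance_reducible]
def actJ : MulAction (G × G) J where
  smul p x := A.tw p.1 p.2⁻¹ x
  one_smul x := by
    show A.tw 1 1⁻¹ x = x
    rw [inv_one, A.tw_one]; rfl
  mul_smul p q x := by
    show A.tw (p.1 * q.1) (p.2 * q.2)⁻¹ x = A.tw p.1 p.2⁻¹ (A.tw q.1 q.2⁻¹ x)
    rw [← LinearMap.comp_apply, A.tw_mul, mul_inv_rev]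

/-- the action of `G × G` on the dual -/
@[instance_reducible]
def actD : MulAction (G × G) (Module.Dual F J) where
  smul p m := m ∘ₗ A.tw p.1⁻¹ p.2
  one_smul m := by
    show m ∘ₗ A.tw 1⁻¹ 1 = m
    rw [inv_one, A.tw_one]; rfl
  mul_smul p q m := by
    show m ∘ₗ A.tw (p.1 * q.1)⁻¹ (p.2 * q.2) = (m ∘ₗ A.tw q.1⁻¹ q.2) ∘ₗ A.tw p.1⁻¹ p.2
    rw [LinearMap.comp_assoc, A.tw_mul, mul_inv_rev]

lemma card_fixed (T : J →ₗ[F] J) :
    Nat.card {x : J // T x = x} = Nat.card {m : Module.Dual F J // m ∘ₗ T = m} := by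
  have h1 : Nat.card {x : J // T x = x} = Nat.card (LinearMap.ker (T - LinearMap.id)) := by
    refine Nat.card_congr (Equiv.subtypeEquivRight fun x => ?_)
    rw [LinearMap.mem_ker, LinearMap.sub_apply, LinearMap.id_apply, sub_eq_zero]
  have h2 : Nat.card {m : Module.Dual F J // m ∘ₗ T = m} =
      Nat.card (LinearMap.ker (T - LinearMap.id).dualMap) := by
    refine Nat.card_congr (Equiv.subtypeEquivRight fun m => ?_)
    rw [LinearMap.mem_ker, LinearMap.dualMap_apply']
    constructor
    · intro h
      rw [LinearMap.comp_sub, h, LinearMap.comp_id, sub_self]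
    · intro h
      rw [LinearMap.comp_sub, LinearMap.comp_id, sub_eq_zero] at h
      exact h
  rw [h1, h2]
  haveI : Module.Finite F J := inferInstance
  have c1 := Module.card_eq_pow_finrank (K := F) (V := LinearMap.ker (T - LinearMap.id))
  have c2 := Module.card_eq_pow_finrank (K := F) (V := LinearMap.ker (T - LinearMap.id).dualMap)
  rw [Nat.card_eq_fintype_card, Nat.card_eq_fintype_card, c1, c2]
  congr 1
  have r1 := LinearMap.finrank_range_add_finrank_ker (T - LinearMap.id)
  have r2 := LinearMap.finrank_range_add_finrank_ker (T - LinearMap.id).dualMap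
  rw [LinearMap.finrank_range_dualMap_eq_finrank_range, Subspace.dual_finrank_eq] at r2
  omega

lemma card_orbits : Nat.card (Quotient (@MulAction.orbitRel (G × G) J _ A.actJ)) =
    Nat.card (Quotient (@MulAction.orbitRel (G × G) (Module.Dual F J) _ A.actD)) := by
  letI := A.actJ
  letI := A.actD
  letI : Fintype (Quotient (MulAction.orbitRel (G × G) J)) := Fintype.ofFinite _
  letI : Fintype (Quotient (MulAction.orbitRel (G × G) (Module.Dual F J))) := Fintype.ofFinite _
  have h1 := MulAction.sum_card_fixedBy_eq_card_orbits_mul_card_group (G × G) J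
  have h2 := MulAction.sum_card_fixedBy_eq_card_orbits_mul_card_group (G × G) (Module.Dual F J)
  have h3 : ∀ p : G × G, Fintype.card (MulAction.fixedBy J p) =
      Fintype.card (MulAction.fixedBy (Module.Dual F J) p) := by
    intro p
    have e1 : Fintype.card (MulAction.fixedBy J p) = Nat.card {x : J // A.tw p.1 p.2⁻¹ x = x} := by
      rw [← Nat.card_eq_fintype_card]
      rfl
    have e2 : Fintype.card (MulAction.fixedBy (Module.Dual F J) p) =
        Nat.card {m : Module.Dual F J // m ∘ₗ A.tw p.1 p.2⁻¹ = m} := by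
      rw [← Nat.card_eq_fintype_card]
      refine Nat.card_congr (Equiv.subtypeEquivRight fun m => ?_)
      show m ∘ₗ A.tw p.1⁻¹ p.2 = m ↔ m ∘ₗ A.tw p.1 p.2⁻¹ = m
      have i1 := A.tw_inv_left p.1 p.2⁻¹
      have i2 := A.tw_inv_right p.1 p.2⁻¹
      rw [inv_inv] at i1 i2
      constructor
      · intro h
        conv_lhs => rw [← h]
        rw [LinearMap.comp_assoc, i2]; rfl
      · intro h
        conv_lhs => rw [← h]
        rw [LinearMap.comp_assoc, i1]; rfl
    rw [e1, e2, card_fixed]
  rw [Finset.sum_congr rfl fun p _ => h3 p, h2] at h1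
  rw [Nat.card_eq_fintype_card, Nat.card_eq_fintype_card]
  have hpos : 0 < Fintype.card (G × G) := Fintype.card_pos
  exact (Nat.eq_of_mul_eq_mul_right hpos h1).symm

end AlgGp

end Pool.Agent.TH1.Andre
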