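import Pool.Agent.TH1.Andre.Box

/-!
The single-box orbit sums are positive multiples of irreducible characters.
-/

set_option linter.unusedSectionVars false
set_option linter.style.haveILetI false
set_option linter.unusedVariables false

open scoped BigOperators Classical
open Pool.Agent.Helper884.IC (IsIrrChar B IsClass cardG_ne isClass_char Top_zero_of_irr
  class_eq_zero B_add_left B_smul_left B_comm B_sum_left B_sub_left B_irr irr_finite Irr mem_Irr
  expand B_expand lamExt indChar isClass_indChar mult_nat)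

noncomputable section

namespace Pool.Agent.TH1.Andre

section norm_one

variable {G : Type} [Group G] [Fintype G]

/-- a class function with natural multiplicities and norm one is an irreducible character -/
lemma irr_of_norm_one (f : G → ℂ) (hf : IsClass f)
    (hm : ∀ chi, IsIrrChar chi → ∃ m : ℕ, B f chi = m) (h1 : B f f = 1) : IsIrrChar f := by
  choose! m hm using hm
  have hsum : ∑ chi ∈ Irr G, (m chi) ^ 2 = 1 := by
    have h2 := B_expand f f hf
    rw [h1] at h2
    have h3 : ∀ chi ∈ Irr G, B f chi * B chi f = ((m chi ^ 2 : ℕ) : ℂ) := by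
      intro chi hchi
      rw [B_comm chi f, hm chi (mem_Irr.mp hchi)]
      push_cast
      ring
    rw [Finset.sum_congr rfl h3, ← Nat.cast_sum] at h2
    exact_mod_cast h2.symm
  obtain ⟨chi, hchi, hne⟩ : ∃ chi ∈ Irr G, m chi ≠ 0 := by
    by_contra hc
    push Not at hc
    rw [Finset.sum_eq_zero (fun chi h => by rw [hc chi h]; rfl)] at hsum
    exact zero_ne_one hsum
  have hle : m chi ^ 2 ≤ 1 := by
    rw [← hsum]
    exact Finset.single_le_sum (f := fun chi => m chi ^ 2) (fun _ _ => Nat.zero_le _) hchi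
  have hm1 : m chi = 1 := by
    have : m chi ≤ 1 := by
      by_contra h
      have : 2 ≤ m chi := by omega
      nlinarith
    omega
  have hz : ∀ psi ∈ Irr G, psi ≠ chi → m psi = 0 := by
    intro psi hpsi hne'
    have h5 : m chi ^ 2 + m psi ^ 2 ≤ 1 := by
      rw [← hsum, ← Finset.sum_pair (f := fun chi => m chi ^ 2) hne'.symm]
      refine Finset.sum_le_sum_of_subset ?_
      intro x hx
      rw [Finset.mem_insert, Finset.mem_singleton] at hx
      rcases hx with rfl | rfl <;> assumption
    rw [hm1] at h5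
    have : m psi ^ 2 = 0 := by omega
    exact pow_eq_zero_iff (by norm_num) |>.mp this
  have hfe := expand f hf
  rw [Finset.sum_eq_single chi] at hfe
  · rw [hm chi (mem_Irr.mp hchi), hm1, Nat.cast_one, one_smul] at hfe
    rw [hfe]
    exact mem_Irr.mp hchi
  · intro psi hpsi hne'
    rw [hm psi (mem_Irr.mp hpsi), hz psi hpsi hne', Nat.cast_zero, zero_smul]
  · intro h; exact absurd hchi h

end norm_one

section general

variable {F J G : Type} [Field F] [Fintype F] [AddCommGroup J] [Module F J] [Fintype J] [Group G]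
  [Fintype G] (A : AlgGp F J G)

lemma AlgGp.B_osum {th : AddChar F ℂ} (hth : th ≠ 1) (l : Module.Dual F J) :
    B (A.osum th l) (A.osum th l) = ((A.orb l).card : ℂ) := by
  have h1 := congrFun (A.conv_self hth l) 1
  have hG : (Nat.card G : ℂ) ≠ 0 := cardG_ne
  unfold conv at h1
  simp only [mul_one, Pi.smul_apply, smul_eq_mul] at h1
  unfold B
  rw [h1, ← mul_assoc, inv_mul_cancel₀ hG, one_mul, A.osum_one]

end general

variable {n : ℕ} {F : Type} [Field F] [Fintype F]

/-- the subgroup with zeros in row `i` strictly between `i` and `j` -/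
def Hrow (i j : Fin n) : Subgroup (U n F) where
  carrier := {g | ∀ k, i < k → k < j → mat g i k = 0}
  mul_mem' := by
    intro g h hg hh k hik hkj
    show (mat (g * h)) i k = 0
    rw [mat_mul, Matrix.mul_apply]
    refine Finset.sum_eq_zero fun m _ => ?_
    rcases lt_trichotomy m i with h1 | h1 | h1
    · rw [mat_low g h1, zero_mul]
    · subst h1
      rw [hh k hik hkj, mul_zero]
    · by_cases h2 : m < j
      · rw [hg m h1 h2, zero_mul]
      · rw [mat_low h (lt_of_lt_of_le hkj (not_lt.mp h2)), mul_zero]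
  one_mem' := by
    intro k hik hkj
    show mat (1 : U n F) i k = 0
    rw [mat_one, Matrix.one_apply_ne hik.ne]
  inv_mem' := by
    intro g hg k hik hkj
    have h1 : (mat g * mat g⁻¹) i k = (1 : Matrix (Fin n) (Fin n) F) i k := by
      rw [mat_mul_inv]
    rw [Matrix.one_apply_ne hik.ne, Matrix.mul_apply, Finset.sum_eq_single i] at h1
    · rw [mat_diag, one_mul] at h1
      exact h1
    · intro m _ hm
      rcases lt_or_gt_of_ne hm with h2 | h2
      · rw [mat_low g h2, zero_mul]
      · by_cases h3 : m < j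
        · rw [hg m h2 h3, zero_mul]
        · rw [mat_low g⁻¹ (lt_of_lt_of_le hkj (not_lt.mp h3)), mul_zero]
    · intro h; exact absurd (Finset.mem_univ _) h

lemma mem_Hrow {i j : Fin n} {g : U n F} :
    g ∈ Hrow i j ↔ ∀ k, i < k → k < j → mat g i k = 0 := Iff.rfl

lemma Hrow_mul {i j : Fin n} (hij : i < j) {g h : U n F} (hg : g ∈ Hrow i j) (hh : h ∈ Hrow i j) :
    mat (g * h) i j = mat g i j + mat h i j := by
  rw [mat_mul, Matrix.mul_apply]
  rw [← Finset.sum_subset (Finset.subset_univ ({i, j} : Finset (Fin n)))]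
  · rw [Finset.sum_pair hij.ne, mat_diag, mat_diag, one_mul, mul_one, add_comm]
  · intro m _ hm
    rw [Finset.mem_insert, Finset.mem_singleton, not_or] at hm
    rcases lt_or_gt_of_ne hm.1 with h1 | h1
    · rw [mat_low g h1, zero_mul]
    · rcases lt_or_gt_of_ne hm.2 with h2 | h2
      · rw [hg m h1 h2, zero_mul]
      · rw [mat_low h h2, mul_zero]

/-- the linear character of `Hrow` -/
def lamRow (th : AddChar F ℂ) (i j : Fin n) (hij : i < j) (a : F) :
    (Hrow i j : Subgroup (U n F)) →* ℂˣ where
  toFun h := Units.mk0 (th (a * mat (h : U n F) i j)) (by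
    intro h0
    have := norm_th th (a * mat (h : U n F) i j)
    rw [h0, norm_zero] at this
    exact zero_ne_one this)
  map_one' := by
    apply Units.ext
    show th (a * mat (1 : U n F) i j) = 1
    rw [mat_one, Matrix.one_apply_ne hij.ne, mul_zero, AddChar.map_zero_eq_one]
  map_mul' g h := by
    apply Units.ext
    show th (a * mat ((g : U n F) * (h : U n F)) i j) = th (a * mat (g : U n F) i j) * th (a * mat (h : U n F) i j)
    rw [Hrow_mul hij g.2 h.2, mul_add, AddChar.map_add_eq_mul]

lemma Phi_ind {th : AddChar F ℂ} (hth : th ≠ 1) {i j : Fin n} (hij : i < j) {a : F} (ha : a ≠ 0)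
    (g : U n F) : Phi th i j a (mat g - 1) =
      ((Fintype.card (U n F) : ℂ) * (Nat.card (Hrow i j : Subgroup (U n F)) : ℂ)) *
        indChar (Hrow i j) (lamRow th i j hij a) g := by
  have h1 : Phi th i j a (mat g - 1) = ∑ u : U n F, (Fintype.card (U n F) : ℂ) *
      lamExt (Hrow i j) (lamRow th i j hij a) (u * g * u⁻¹) := by
    unfold Phi
    refine Finset.sum_congr rfl fun u _ => ?_
    have h2 : ∑ v : U n F, th (a * (mat u * (mat g - 1) * mat v) i j) =
        ∑ w : U n F, th (a * ∑ k, (mat (u * g * u⁻¹) - 1) i k * mat w k j) := by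
      refine (Equiv.sum_comp (Equiv.mulLeft u⁻¹)
        (fun v : U n F => th (a * (mat u * (mat g - 1) * mat v) i j))).symm.trans ?_
      refine Finset.sum_congr rfl fun w _ => ?_
      have h3 : mat u * (mat g - 1) * mat (u⁻¹ * w) = (mat (u * g * u⁻¹) - 1) * mat w := by
        rw [mat_mul, mat_mul, mat_mul]
        have : mat u * (mat g - 1) * (mat u⁻¹ * mat w) =
          (mat u * mat g * mat u⁻¹ - mat u * mat u⁻¹) * mat w := by noncomm_ring
        rw [this, mat_mul_inv]
      rw [Equiv.coe_mulLeft, h3, Matrix.mul_apply]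
    rw [h2]
    set M := u * g * u⁻¹ with hM
    by_cases hH : M ∈ Hrow i j
    · have hw : ∀ l, l < j → (mat M - 1) i l = 0 := by
        intro l hl
        by_cases hil : i < l
        · rw [Matrix.sub_apply, hH l hil hl, Matrix.one_apply_ne hil.ne, sub_zero]
        · exact M.2 i l (not_lt.mp hil)
      rw [inner_const th a _ hw]
      congr 1
      unfold lamExt
      rw [dif_pos hH]
      show th (a * (mat M - 1) i j) = th (a * mat M i j)
      rw [Matrix.sub_apply, Matrix.one_apply_ne hij.ne, sub_zero]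
    · have : ∃ k, i < k ∧ k < j ∧ mat M i k ≠ 0 := by
        by_contra hc
        push Not at hc
        exact hH fun k h1 h2 => hc k h1 h2
      obtain ⟨k, hik, hkj, hk⟩ := this
      have hl : lamExt (Hrow i j) (lamRow th i j hij a) M = 0 := by
        unfold lamExt
        rw [dif_neg hH]
      rw [hl, mul_zero]
      refine inner_zero hth ha _ k hkj ?_
      rw [Matrix.sub_apply, Matrix.one_apply_ne hik.ne, sub_zero]
      exact hk
  rw [h1, ← Finset.mul_sum, mul_assoc]
  congr 1
  unfold indChar
  have hH : (Nat.card (Hrow i j : Subgroup (U n F)) : ℂ) ≠ 0 := by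
    exact_mod_cast Nat.card_pos.ne'
  rw [← mul_assoc, mul_inv_cancel₀ hH, one_mul]
  refine Fintype.sum_equiv (Equiv.inv _) _ _ fun u => ?_
  rw [Equiv.inv_apply, inv_inv]

/-- index set of the free coordinates -/
abbrev Idx (i j : Fin n) : Type := {k : Fin n // i < k ∧ k < j}

lemma card_U_le (i j : Fin n) : Fintype.card (U n F) ≤
    Nat.card (Hrow i j : Subgroup (U n F)) * Fintype.card (Idx i j → F) := by
  have h1 := Finset.card_le_mul_card_image
    (f := fun g : U n F => (fun k : Idx i j => mat g i k : Idx i j → F))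
    (Finset.univ : Finset (U n F)) (Nat.card (Hrow i j : Subgroup (U n F))) (by
      intro b hb
      obtain ⟨g0, _, rfl⟩ := Finset.mem_image.mp hb
      rw [Nat.card_eq_fintype_card, ← Fintype.card_coe]
      refine Fintype.card_le_of_injective (fun g => (⟨(g : U n F) * g0⁻¹, ?_⟩ : Hrow i j)) ?_
      · obtain ⟨g, hg⟩ := g
        rw [Finset.mem_filter] at hg
        have hg2 := hg.2
        intro k hik hkj
        show mat (g * g0⁻¹) i k = 0
        have h2 : (mat g0 * mat g0⁻¹) i k = 0 := by
          rw [mat_mul_inv, Matrix.one_apply_ne hik.ne]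
        rw [mat_mul, ← h2, Matrix.mul_apply, Matrix.mul_apply]
        refine Finset.sum_congr rfl fun m _ => ?_
        by_cases hmk : k < m
        · rw [mat_low g0⁻¹ hmk, mul_zero, mul_zero]
        · congr 1
          rcases lt_trichotomy m i with h3 | h3 | h3
          · rw [mat_low g h3, mat_low g0 h3]
          · subst h3; rw [mat_diag, mat_diag]
          · exact congrFun hg2 ⟨m, h3, lt_of_le_of_lt (not_lt.mp hmk) hkj⟩
      · intro g h hgh
        have := congrArg (fun x : (Hrow i j : Subgroup (U n F)) => (x : U n F)) hgh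
        exact Subtype.ext (mul_right_cancel this))
  rw [Finset.card_univ] at h1
  refine h1.trans (Nat.mul_le_mul_left _ ?_)
  rw [← Finset.card_univ]
  exact Finset.card_le_card (Finset.subset_univ _)

/-- the left unipotent with prescribed row -/
def uRow (i j : Fin n) (al : Idx i j → F) : U n F :=
  mk ⟨Matrix.of fun r s => if h : r = i ∧ i < s ∧ s < j then al ⟨s, h.2⟩ else 0, by
    intro r s hsr
    simp only [Matrix.of_apply]
    rw [dif_neg]
    rintro ⟨rfl, h, _⟩
    exact absurd h (not_lt.mpr hsr)⟩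

/-- the right unipotent with prescribed column -/
def vCol (i j : Fin n) (be : Idx i j → F) : U n F :=
  mk ⟨Matrix.of fun r s => if h : s = j ∧ i < r ∧ r < j then be ⟨r, h.2⟩ else 0, by
    intro r s hsr
    simp only [Matrix.of_apply]
    rw [dif_neg]
    rintro ⟨rfl, _, h⟩
    exact absurd h (not_lt.mpr hsr)⟩

lemma uRow_apply (i j : Fin n) (al : Idx i j → F) (k : Idx i j) : mat (uRow i j al) i k = al k := by
  unfold uRow
  rw [mat_mk, Matrix.add_apply, Matrix.one_apply_ne k.2.1.ne, zero_add]
  show (if h : i = i ∧ i < (k : Fin n) ∧ (k : Fin n) < j then al ⟨k, h.2⟩ else 0) = al k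
  rw [dif_pos ⟨rfl, k.2⟩]

lemma vCol_apply (i j : Fin n) (be : Idx i j → F) (k : Idx i j) : mat (vCol i j be) k j = be k := by
  unfold vCol
  rw [mat_mk, Matrix.add_apply, Matrix.one_apply_ne k.2.2.ne, zero_add]
  show (if h : j = j ∧ i < (k : Fin n) ∧ (k : Fin n) < j then be ⟨k, h.2⟩ else 0) = be k
  rw [dif_pos ⟨rfl, k.2⟩]

lemma card_orb_ge {i j : Fin n} (hij : i < j) {a : F} (ha : a ≠ 0) :
    Fintype.card (Idx i j → F) * Fintype.card (Idx i j → F) ≤
      ((AU n F).orb (box i j a)).card := by
  rw [← Fintype.card_prod, ← Fintype.card_coe]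
  refine Fintype.card_le_of_injective
    (fun p : (Idx i j → F) × (Idx i j → F) =>
      (⟨box i j a ∘ₗ (AU n F).tw (uRow i j p.1) (vCol i j p.2),
        (AU n F).mem_orb.mpr ⟨_, _, rfl⟩⟩ : ↥((AU n F).orb (box i j a)))) ?_
  rintro ⟨al, be⟩ ⟨al', be'⟩ h
  have h0 : box i j a ∘ₗ (AU n F).tw (uRow i j al) (vCol i j be) =
      box i j a ∘ₗ (AU n F).tw (uRow i j al') (vCol i j be') := congrArg Subtype.val h
  have ev : ∀ (u v : U n F) (y : nil n F), (box i j a ∘ₗ (AU n F).tw u v) y =
      a * (mat u * (y : Matrix (Fin n) (Fin n) F) * mat v) i j := fun u v y => rfl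
  have e1 : ∀ (u v : U n F) (k : Fin n) (hk : k < j),
      (box i j a ∘ₗ (AU n F).tw u v) ⟨Matrix.single k j 1, by
        intro r s hsr
        rw [Matrix.single_apply, if_neg]
        rintro ⟨rfl, rfl⟩
        exact absurd hk (not_lt.mpr hsr)⟩ = a * mat u i k := by
    intro u v k hk
    rw [ev]
    congr 1
    show (mat u * (Matrix.single k j 1 : Matrix (Fin n) (Fin n) F) * mat v) i j = _
    rw [Matrix.mul_apply, Finset.sum_eq_single j]
    · rw [Matrix.mul_single_apply_same, mat_diag, mul_one, mul_one]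
    · intro m _ hm
      rw [Matrix.mul_single_apply_of_ne _ _ _ _ _ hm, zero_mul]
    · intro h; exact absurd (Finset.mem_univ _) h
  have e2 : ∀ (u v : U n F) (k : Fin n) (hk : i < k),
      (box i j a ∘ₗ (AU n F).tw u v) ⟨Matrix.single i k 1, by
        intro r s hsr
        rw [Matrix.single_apply, if_neg]
        rintro ⟨rfl, rfl⟩
        exact absurd hk (not_lt.mpr hsr)⟩ = a * mat v k j := by
    intro u v k hk
    rw [ev]
    congr 1
    show (mat u * (Matrix.single i k 1 : Matrix (Fin n) (Fin n) F) * mat v) i j = _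
    rw [mul_assoc, Matrix.mul_apply, Finset.sum_eq_single i]
    · rw [Matrix.single_mul_apply_same, mat_diag, one_mul, one_mul]
    · intro m _ hm
      rw [Matrix.single_mul_apply_of_ne _ _ _ _ _ hm, mul_zero]
    · intro h; exact absurd (Finset.mem_univ _) h
  have r1 : al = al' := by
    funext k
    have h1 := DFunLike.congr_fun h0 (⟨Matrix.single (k : Fin n) j 1, by
        intro r s hsr
        rw [Matrix.single_apply, if_neg]
        rintro ⟨rfl, rfl⟩
        exact absurd k.2.2 (not_lt.mpr hsr)⟩ : nil n F)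
    rw [e1 _ _ _ k.2.2, e1 _ _ _ k.2.2, uRow_apply, uRow_apply] at h1
    exact mul_left_cancel₀ ha h1
  have r2 : be = be' := by
    funext k
    have h1 := DFunLike.congr_fun h0 (⟨Matrix.single i (k : Fin n) 1, by
        intro r s hsr
        rw [Matrix.single_apply, if_neg]
        rintro ⟨rfl, rfl⟩
        exact absurd k.2.1 (not_lt.mpr hsr)⟩ : nil n F)
    rw [e2 _ _ _ k.2.1, e2 _ _ _ k.2.1, vCol_apply, vCol_apply] at h1
    exact mul_left_cancel₀ ha h1
  rw [r1, r2]

/-- **Single-box supercharacters are irreducible.** -/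
theorem box_irr {th : AddChar F ℂ} (hth : th ≠ 1) {i j : Fin n} (hij : i < j) {a : F}
    (ha : a ≠ 0) : ∃ c : ℝ, 0 < c ∧ ∃ chi : U n F → ℂ, IsIrrChar chi ∧
      (AU n F).osum th (box i j a) = (c : ℂ) • chi := by
  set o := ((AU n F).orb (box i j a)).card with ho
  set u := Fintype.card (U n F) with hu
  set h := Nat.card (Hrow i j : Subgroup (U n F)) with hh
  set Q := Fintype.card (Idx i j → F) with hQ
  have ou : 0 < o := Finset.card_pos.mpr ⟨_, (AU n F).self_mem_orb _⟩
  have uu : 0 < u := Fintype.card_pos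
  have hpos : 0 < h := Nat.card_pos
  have ouC : (o : ℂ) ≠ 0 := by exact_mod_cast ou.ne'
  have uuC : (u : ℂ) ≠ 0 := by exact_mod_cast uu.ne'
  have hhC : (h : ℂ) ≠ 0 := by exact_mod_cast hpos.ne'
  set ind := indChar (Hrow i j) (lamRow th i j hij a) with hind
  have key : (AU n F).osum th (box i j a) = ((((o : ℝ) * h / u : ℝ)) : ℂ) • ind := by
    funext g
    have h1 := Phi_osum th i j a g
    rw [Phi_ind hth hij ha g] at h1
    simp only [Pi.smul_apply, smul_eq_mul]
    push_cast
    rw [← ho, ← hu, ← hh] at h1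
    field_simp
    have h2 : (u : ℂ) * ((o : ℂ) * (h : ℂ) * ind g) = (u : ℂ) * ((AU n F).osum th (box i j a) g * u) := by
      linear_combination h1
    exact (mul_left_cancel₀ uuC h2).symm
  have hclass : IsClass ind := isClass_indChar _ _
  have hnat : ∀ chi, IsIrrChar chi → ∃ m : ℕ, B ind chi = m := fun chi hchi =>
    mult_nat _ _ hchi
  -- norm
  have hB : B ((AU n F).osum th (box i j a)) ((AU n F).osum th (box i j a)) = (o : ℂ) :=
    (AU n F).B_osum hth _
  rw [key, B_smul_left, B_comm, B_smul_left] at hB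
  -- natural number N
  obtain ⟨N, hN⟩ : ∃ N : ℕ, B ind ind = N := by
    choose! m hm using hnat
    refine ⟨∑ chi ∈ Irr (U n F), m chi ^ 2, ?_⟩
    rw [B_expand ind ind hclass]
    push_cast
    refine Finset.sum_congr rfl fun chi hchi => ?_
    rw [B_comm chi ind, hm chi (mem_Irr.mp hchi)]
    ring
  rw [hN] at hB
  have hNeq : N * o * h ^ 2 = u ^ 2 := by
    have h3 : ((N * o * h ^ 2 : ℕ) : ℂ) = ((u ^ 2 : ℕ) : ℂ) := by
      push_cast at hB ⊢
      field_simp at hB
      linear_combination hB
    exact_mod_cast h3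
  have b1 := card_U_le (F := F) i j
  have b2 := card_orb_ge (F := F) hij ha
  rw [← hu, ← hh, ← hQ] at b1
  rw [← hQ, ← ho] at b2
  have hN1 : N = 1 := by
    have h5 : u ^ 2 ≤ o * h ^ 2 := by
      calc u ^ 2 ≤ (h * Q) ^ 2 := Nat.pow_le_pow_left b1 2
        _ = Q * Q * h ^ 2 := by ring
        _ ≤ o * h ^ 2 := Nat.mul_le_mul_right _ b2
    have hpos2 : 0 < o * h ^ 2 := by positivity
    have h6 : N * (o * h ^ 2) ≤ 1 * (o * h ^ 2) := by
      calc N * (o * h ^ 2) = N * o * h ^ 2 := by ring
        _ = u ^ 2 := hNeq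
        _ ≤ 1 * (o * h ^ 2) := by rw [one_mul]; exact h5
    have h7 : N ≤ 1 := Nat.le_of_mul_le_mul_right h6 hpos2
    have h8 : N ≠ 0 := by
      rintro rfl
      rw [zero_mul, zero_mul] at hNeq
      have : 0 < u ^ 2 := by positivity
      omega
    omega
  refine ⟨(o : ℝ) * h / u, by positivity, ind, ?_, key⟩
  apply irr_of_norm_one ind hclass hnat
  rw [hN, hN1, Nat.cast_one]

end Pool.Agent.TH1.Andre
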