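import Pool.Agent.TH1.Andre.Gen2

/-!
The unitriangular group as an algebra group.
-/

set_option linter.unusedSectionVars false
set_option linter.style.haveILetI false

open scoped BigOperators Classical

noncomputable section

namespace Pool.Agent.TH1.Andre

/-- Strictly upper triangular `n × n` matrices over `F`. -/
def nil (n : ℕ) (F : Type) [Field F] : Submodule F (Matrix (Fin n) (Fin n) F) where
  carrier := {x | ∀ i j, j ≤ i → x i j = 0}
  add_mem' := by
    intro x y hx hy i j h
    rw [Matrix.add_apply, hx i j h, hy i j h, add_zero]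
  zero_mem' := fun i j _ => rfl
  smul_mem' := by
    intro c x hx i j h
    rw [Matrix.smul_apply, hx i j h, smul_zero]

variable {n : ℕ} {F : Type} [Field F]

lemma nil_mul {x y : Matrix (Fin n) (Fin n) F} (hx : x ∈ nil n F) (hy : y ∈ nil n F) :
    x * y ∈ nil n F := by
  intro i j h
  rw [Matrix.mul_apply]
  refine Finset.sum_eq_zero fun k _ => ?_
  by_cases hk : k ≤ i
  · rw [hx i k hk, zero_mul]
  · rw [hy k j (le_trans h (le_of_lt (not_le.mp hk))), mul_zero]

lemma inv_mem_aux (g h : Matrix (Fin n) (Fin n) F) (hg : g - 1 ∈ nil n F) (hgh : g * h = 1) :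
    h - 1 ∈ nil n F := by
  have hg1 : ∀ i, g i i = 1 := by
    intro i
    have := hg i i le_rfl
    rw [Matrix.sub_apply, Matrix.one_apply_eq] at this
    exact sub_eq_zero.mp this
  have hg0 : ∀ i k, k < i → g i k = 0 := by
    intro i k hk
    have := hg i k hk.le
    rw [Matrix.sub_apply, Matrix.one_apply_ne hk.ne'] at this
    simpa using this
  have key : ∀ m : ℕ, ∀ i : Fin n, n - (i : ℕ) ≤ m → ∀ j, j ≤ i →
      h i j = (1 : Matrix (Fin n) (Fin n) F) i j := by
    intro m
    induction m with
    | zero =>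
      intro i hi
      have := i.2
      omega
    | succ m ih =>
      intro i hi j hj
      have h1 : (g * h) i j = (1 : Matrix (Fin n) (Fin n) F) i j := by rw [hgh]
      rw [Matrix.mul_apply, Finset.sum_eq_single i] at h1
      · rw [hg1, one_mul] at h1
        exact h1
      · intro k _ hk
        rcases lt_or_gt_of_ne hk with h2 | h2
        · rw [hg0 i k h2, zero_mul]
        · have h3 := ih k (by
            have : (i : ℕ) < (k : ℕ) := h2
            omega) j (le_trans hj h2.le)
          rw [h3, Matrix.one_apply_ne (lt_of_le_of_lt hj h2).ne', mul_zero]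
      · intro h; exact absurd (Finset.mem_univ _) h
  intro i j hj
  rw [Matrix.sub_apply, key _ i le_rfl j hj, sub_self]

/-- The group of upper unitriangular `n × n` matrices over `F`. -/
def U (n : ℕ) (F : Type) [Field F] : Subgroup (Matrix (Fin n) (Fin n) F)ˣ where
  carrier := {g | (g : Matrix (Fin n) (Fin n) F) - 1 ∈ nil n F}
  mul_mem' := by
    intro g h hg hh
    have e : ((g * h : (Matrix (Fin n) (Fin n) F)ˣ) : Matrix (Fin n) (Fin n) F) - 1 =
        ((g : Matrix (Fin n) (Fin n) F) - 1) * ((h : Matrix (Fin n) (Fin n) F) - 1) +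
          ((g : Matrix (Fin n) (Fin n) F) - 1) + ((h : Matrix (Fin n) (Fin n) F) - 1) := by
      rw [Units.val_mul]; noncomm_ring
    rw [Set.mem_setOf_eq, e]
    exact Submodule.add_mem _ (Submodule.add_mem _ (nil_mul hg hh) hg) hh
  one_mem' := by
    rw [Set.mem_setOf_eq, Units.val_one, sub_self]
    exact Submodule.zero_mem _
  inv_mem' := by
    intro g hg
    exact inv_mem_aux _ _ hg (by rw [← Units.val_mul, mul_inv_cancel, Units.val_one])

/-- The matrix of an element of `U n F`. -/
abbrev mat (g : U n F) : Matrix (Fin n) (Fin n) F := ((g : (Matrix (Fin n) (Fin n) F)ˣ) : _)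

lemma mat_mul (g h : U n F) : mat (g * h) = mat g * mat h := rfl

lemma mat_one : mat (1 : U n F) = 1 := rfl

lemma mat_inv_mul (g : U n F) : mat g⁻¹ * mat g = 1 := by
  rw [← mat_mul, inv_mul_cancel, mat_one]

lemma mat_mul_inv (g : U n F) : mat g * mat g⁻¹ = 1 := by
  rw [← mat_mul, mul_inv_cancel, mat_one]

lemma mat_diag (g : U n F) (i : Fin n) : mat g i i = 1 := by
  have := g.2 i i le_rfl
  rw [Matrix.sub_apply, Matrix.one_apply_eq] at this
  exact sub_eq_zero.mp this

lemma mat_low (g : U n F) {i k : Fin n} (hk : k < i) : mat g i k = 0 := by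
  have := g.2 i k hk.le
  rw [Matrix.sub_apply, Matrix.one_apply_ne hk.ne', sub_zero] at this
  exact this

lemma U_mul_nil (g : U n F) {x : Matrix (Fin n) (Fin n) F} (hx : x ∈ nil n F) :
    mat g * x ∈ nil n F := by
  have : mat g * x = (mat g - 1) * x + x := by noncomm_ring
  rw [this]
  exact Submodule.add_mem _ (nil_mul g.2 hx) hx

lemma nil_mul_U (g : U n F) {x : Matrix (Fin n) (Fin n) F} (hx : x ∈ nil n F) :
    x * mat g ∈ nil n F := by
  have : x * mat g = x * (mat g - 1) + x := by noncomm_ring
  rw [this]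
  exact Submodule.add_mem _ (nil_mul hx g.2) hx

/-- Two-sided multiplication `x ↦ u x v` on strictly upper triangular matrices. -/
def twU (u v : U n F) : nil n F →ₗ[F] nil n F where
  toFun x := ⟨mat u * (x : Matrix (Fin n) (Fin n) F) * mat v,
    nil_mul_U v (U_mul_nil u x.2)⟩
  map_add' x y := by
    apply Subtype.ext
    simp [mul_add, add_mul]
  map_smul' c x := by
    apply Subtype.ext
    simp

/-- The map `g ↦ g - 1`. -/
def subOne (g : U n F) : nil n F := ⟨mat g - 1, g.2⟩

lemma subOne_bij : Function.Bijective (subOne : U n F → nil n F) := by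
  constructor
  · intro g h hgh
    have := congrArg (fun x : nil n F => (x : Matrix (Fin n) (Fin n) F)) hgh
    simp only [subOne] at this
    apply Subtype.ext
    apply Units.ext
    exact sub_left_injective this
  · intro x
    have hdet : (1 + (x : Matrix (Fin n) (Fin n) F)).det = 1 := by
      rw [Matrix.det_of_upperTriangular]
      · apply Finset.prod_eq_one
        intro i _
        rw [Matrix.add_apply, Matrix.one_apply_eq, x.2 i i le_rfl, add_zero]
      · intro i j hij
        have hij' : j < i := hij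
        rw [Matrix.add_apply, Matrix.one_apply_ne hij'.ne', x.2 i j hij'.le, add_zero]
    have hu : IsUnit (1 + (x : Matrix (Fin n) (Fin n) F)) := by
      rw [Matrix.isUnit_iff_isUnit_det, hdet]
      exact isUnit_one
    refine ⟨⟨hu.unit, ?_⟩, ?_⟩
    · show (hu.unit : Matrix (Fin n) (Fin n) F) - 1 ∈ nil n F
      rw [IsUnit.unit_spec, add_sub_cancel_left]
      exact x.2
    · apply Subtype.ext
      show (hu.unit : Matrix (Fin n) (Fin n) F) - 1 = _
      rw [IsUnit.unit_spec, add_sub_cancel_left]

/-- The unitriangular group as an abstract algebra group. -/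
def AU (n : ℕ) (F : Type) [Field F] : AlgGp F (nil n F) (U n F) where
  e := Equiv.ofBijective subOne subOne_bij
  tw := twU
  tw_one := by
    ext x : 1
    apply Subtype.ext
    show mat (1 : U n F) * (x : Matrix (Fin n) (Fin n) F) * mat (1 : U n F) = x
    rw [mat_one, one_mul, mul_one]
  tw_mul u v u' v' := by
    ext x : 1
    apply Subtype.ext
    show mat u * (mat u' * (x : Matrix (Fin n) (Fin n) F) * mat v') * mat v =
      mat (u * u') * (x : Matrix (Fin n) (Fin n) F) * mat (v' * v)
    rw [mat_mul, mat_mul]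
    noncomm_ring
  e_one := by
    apply Subtype.ext
    show mat (1 : U n F) - 1 = 0
    rw [mat_one, sub_self]
  e_mul g h := by
    apply Subtype.ext
    show mat (g⁻¹ * h) - 1 = mat g⁻¹ * ((mat h - 1) - (mat g - 1)) * mat (1 : U n F)
    rw [mat_mul, mat_one, mul_one]
    have : mat g⁻¹ * ((mat h - 1) - (mat g - 1)) = mat g⁻¹ * mat h - mat g⁻¹ * mat g := by
      noncomm_ring
    rw [this, mat_inv_mul]
  e_conj h g := by
    apply Subtype.ext
    show mat (h * g * h⁻¹) - 1 = mat h * (mat g - 1) * mat h⁻¹
    rw [mat_mul, mat_mul]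
    have : mat h * (mat g - 1) * mat h⁻¹ = mat h * mat g * mat h⁻¹ - mat h * mat h⁻¹ := by
      noncomm_ring
    rw [this, mat_mul_inv]

variable [Fintype F]

instance finU : Finite (U n F) := inferInstance

instance fintU : Fintype (U n F) := Fintype.ofFinite _

instance finNil : Finite (nil n F) := inferInstance

instance fintNil : Fintype (nil n F) := Fintype.ofFinite _

/-! ### Elimination -/

/-- The unitriangular matrix `1 + x`. -/
def mk (x : nil n F) : U n F := (AU n F).e.symm x

omit [Fintype F] in
lemma mat_mk (x : nil n F) : mat (mk x) = 1 + (x : Matrix (Fin n) (Fin n) F) := by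
  have h : (AU n F).e (mk x) = x := Equiv.apply_symm_apply _ _
  have h2 := congrArg (fun x : nil n F => (x : Matrix (Fin n) (Fin n) F)) h
  have h3 : mat (mk x) - 1 = (x : Matrix (Fin n) (Fin n) F) := h2
  rw [← h3]
  abel

/-- columns before `c` are reduced -/
def Red (c : ℕ) (y : Matrix (Fin n) (Fin n) F) : Prop :=
  ∀ j : Fin n, (j : ℕ) < c → ∀ i, y i j ≠ 0 → (∀ k, k ≠ j → y i k = 0) ∧ (∀ r, r ≠ i → y r j = 0)

omit [Fintype F] in
lemma elim_step (c : ℕ) (hc : c < n) (y : Matrix (Fin n) (Fin n) F) (hy : y ∈ nil n F)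
    (hr : Red c y) : ∃ u v : U n F, Red (c + 1) (mat u * y * mat v) := by
  set C : Fin n := ⟨c, hc⟩ with hC
  by_cases hcol : ∀ i, y i C = 0
  · refine ⟨1, 1, ?_⟩
    rw [mat_one, one_mul, mul_one]
    intro j hj i hij
    by_cases h : (j : ℕ) < c
    · exact hr j h i hij
    · have : j = C := Fin.ext (by simp [hC]; omega)
      subst this
      exact absurd (hcol i) hij
  push Not at hcol
  obtain ⟨i, hi, hmax⟩ : ∃ i, y i C ≠ 0 ∧ ∀ r, i < r → y r C = 0 := by
    obtain ⟨i0, hi0⟩ := hcol
    have hne : (Finset.univ.filter fun r => y r C ≠ 0).Nonempty :=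
      ⟨i0, Finset.mem_filter.mpr ⟨Finset.mem_univ _, hi0⟩⟩
    refine ⟨(Finset.univ.filter fun r => y r C ≠ 0).max' hne, ?_, ?_⟩
    · exact (Finset.mem_filter.mp (Finset.max'_mem _ hne)).2
    · intro r hlt
      by_contra h
      have := Finset.le_max' (Finset.univ.filter fun r => y r C ≠ 0) r
        (Finset.mem_filter.mpr ⟨Finset.mem_univ _, h⟩)
      exact absurd hlt (not_lt.mpr this)
  -- row i is zero before c
  have hrow : ∀ j : Fin n, (j : ℕ) < c → y i j = 0 := by
    intro j hj
    by_contra h
    have hne : C ≠ j := by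
      intro h2
      rw [← h2] at hj
      simp [hC] at hj
    exact hi ((hr j hj i h).1 C hne)
  let xu : nil n F := ⟨Matrix.of fun r s => if s = i ∧ r < i then -(y r C / y i C) else 0, by
    intro r s hsr
    simp only [Matrix.of_apply]
    rw [if_neg]
    rintro ⟨rfl, h⟩
    exact absurd h (not_lt.mpr hsr)⟩
  have hu : ∀ r k, (mat (mk xu) * y) r k = y r k + (if r < i then -(y r C / y i C) * y i k else 0) := by
    intro r k
    rw [mat_mk, add_mul, one_mul, Matrix.add_apply]
    congr 1
    rw [Matrix.mul_apply, Finset.sum_eq_single i]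
    · simp only [xu, Matrix.of_apply, true_and]
      split_ifs <;> simp
    · intro s _ hs
      simp only [xu, Matrix.of_apply]
      rw [if_neg (fun h => hs h.1), zero_mul]
    · intro h; exact absurd (Finset.mem_univ _) h
  set y1 := mat (mk xu) * y with hy1
  have a1 : ∀ r, r ≠ i → y1 r C = 0 := by
    intro r hri
    rw [hu]
    rcases lt_or_gt_of_ne hri with h | h
    · rw [if_pos h, neg_mul, div_mul_cancel₀ _ hi, add_neg_cancel]
    · rw [if_neg (not_lt.mpr h.le), hmax r h, add_zero]
  have a2 : y1 i C = y i C := by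
    rw [hu, if_neg (lt_irrefl i), add_zero]
  have a3 : ∀ r (j : Fin n), (j : ℕ) < c → y1 r j = y r j := by
    intro r j hj
    rw [hu, hrow j hj]
    simp
  have a4 : ∀ j : Fin n, (j : ℕ) < c → ∀ r, y1 r j ≠ 0 →
      (∀ k, k ≠ j → y1 r k = 0) ∧ (∀ s, s ≠ r → y1 s j = 0) := by
    intro j hj r hrj
    rw [a3 r j hj] at hrj
    obtain ⟨b1, b2⟩ := hr j hj r hrj
    have hCj : C ≠ j := by
      intro h2
      rw [← h2] at hj
      simp [hC] at hj
    constructor
    · intro k hk
      rw [hu, b1 k hk, b1 C hCj]
      simp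
    · intro s hs
      rw [a3 s j hj, b2 s hs]
  let xv : nil n F := ⟨Matrix.of fun r s => if r = C ∧ C < s then -(y1 i s / y1 i C) else 0, by
    intro r s hsr
    simp only [Matrix.of_apply]
    rw [if_neg]
    rintro ⟨rfl, h⟩
    exact absurd h (not_lt.mpr hsr)⟩
  have hv : ∀ r k, (y1 * mat (mk xv)) r k =
      y1 r k + (if C < k then y1 r C * -(y1 i k / y1 i C) else 0) := by
    intro r k
    rw [mat_mk, mul_add, mul_one, Matrix.add_apply]
    congr 1
    rw [Matrix.mul_apply, Finset.sum_eq_single C]
    · simp only [xv, Matrix.of_apply, true_and]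
      split_ifs <;> simp
    · intro s _ hs
      simp only [xv, Matrix.of_apply]
      rw [if_neg (fun h => hs h.1), mul_zero]
    · intro h; exact absurd (Finset.mem_univ _) h
  refine ⟨mk xu, mk xv, ?_⟩
  rw [← hy1]
  have b1 : ∀ r k, r ≠ i → (y1 * mat (mk xv)) r k = y1 r k := by
    intro r k hri
    rw [hv, a1 r hri]
    simp
  have b2 : ∀ k, k ≠ C → (y1 * mat (mk xv)) i k = 0 := by
    intro k hk
    rw [hv]
    rcases lt_or_gt_of_ne hk with h | h
    · rw [if_neg (not_lt.mpr h.le), add_zero]
      have hk' : (k : ℕ) < c := h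
      rw [a3 i k hk', hrow k hk']
    · rw [if_pos h]
      have hne : y1 i C ≠ 0 := by rw [a2]; exact hi
      field_simp
      ring
  intro j hj r hrj
  by_cases h : (j : ℕ) < c
  · have hri : r ≠ i := by
      rintro rfl
      have hjC : j ≠ C := by
        intro h2
        rw [h2] at h
        simp [hC] at h
      exact hrj (b2 j hjC)
    rw [b1 r j hri] at hrj
    obtain ⟨c1, c2⟩ := a4 j h r hrj
    constructor
    · intro k hk
      rw [b1 r k hri, c1 k hk]
    · intro s hs
      by_cases hsi : s = i
      · subst hsi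
        have hjC : j ≠ C := by
          intro h2
          rw [h2] at h
          simp [hC] at h
        exact b2 j hjC
      · rw [b1 s j hsi, c2 s hs]
  · have hjC : j = C := Fin.ext (by simp [hC]; omega)
    subst hjC
    have hri : r = i := by
      by_contra hne
      rw [b1 r _ hne, a1 r hne] at hrj
      exact hrj rfl
    subst hri
    constructor
    · intro k hk
      exact b2 k hk
    · intro s hs
      rw [b1 s _ hs, a1 s hs]

omit [Fintype F] in
lemma elim_all (y : Matrix (Fin n) (Fin n) F) (hy : y ∈ nil n F) (c : ℕ) (hc : c ≤ n) :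
    ∃ u v : U n F, Red c (mat u * y * mat v) := by
  induction c with
  | zero => exact ⟨1, 1, fun j hj => absurd hj (Nat.not_lt_zero _)⟩
  | succ c ih =>
    obtain ⟨u, v, h⟩ := ih (by omega)
    obtain ⟨u', v', h'⟩ := elim_step c (by omega) _ (nil_mul_U v (U_mul_nil u hy)) h
    refine ⟨u' * u, v * v', ?_⟩
    have : mat (u' * u) * y * mat (v * v') = mat u' * (mat u * y * mat v) * mat v' := by
      rw [mat_mul, mat_mul]; noncomm_ring
    rw [this]
    exact h'

end Pool.Agent.TH1.Andre
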