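import Pool.Agent.Helper884.IC.Basic

/-!
Scalars of class functions on irreducible characters: for class functions `f`, `h` and an
irreducible character `chi`, `B (f * h) chi * chi 1 = |G| * B f chi * B h chi`.
-/

set_option linter.unusedSectionVars false
set_option linter.style.haveILetI false

open scoped BigOperators Classical
open Representation
open Pool.Agent.Helper884.IC (IsIrrChar B IsClass cardG_ne isClass_char Top_zero_of_irr
  class_eq_zero B_add_left B_smul_left B_comm B_sum_left B_sub_left B_irr irr_finite Irr mem_Irr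
  expand B_expand)

noncomputable section

namespace Pool.Agent.TH1.Andre

variable {G : Type} [Group G] [Fintype G]

/-- convolution -/
def conv (f h : G → ℂ) (k : G) : ℂ := ∑ g : G, f g * h (g⁻¹ * k)

/-- the operator attached to a class function -/
abbrev TopR {V : Type} [AddCommGroup V] [Module ℂ V] (rho : Representation ℂ G V) (f : G → ℂ) :
    V →ₗ[ℂ] V := Pool.Agent.Helper884.IC.Top rho f

/-- the delta function at `1` -/
def delta (g : G) : ℂ := if g = 1 then 1 else 0

lemma delta_class : IsClass (delta : G → ℂ) := by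
  intro g y
  unfold delta
  have : y * g * y⁻¹ = 1 ↔ g = 1 := by
    constructor
    · intro h
      have := congrArg (fun z => y⁻¹ * z * y) h
      simpa [mul_assoc] using this
    · rintro rfl; simp
  simp [this]

lemma B_delta (chi : G → ℂ) : B delta chi = (Nat.card G : ℂ)⁻¹ * chi 1 := by
  unfold B delta
  rw [Finset.sum_eq_single 1]
  · simp
  · intro b _ hb
    simp [hb]
  · simp

lemma Top_delta {V : Type} [AddCommGroup V] [Module ℂ V] (rho : Representation ℂ G V) :
    TopR rho delta = LinearMap.id := by
  unfold TopR Pool.Agent.Helper884.IC.Top delta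
  rw [Finset.sum_eq_single 1]
  · simp; rfl
  · intro b _ hb
    simp [hb]
  · simp

lemma Top_sub {V : Type} [AddCommGroup V] [Module ℂ V] (rho : Representation ℂ G V)
    (f h : G → ℂ) : TopR rho (f - h) = TopR rho f - TopR rho h := by
  simp [TopR, Pool.Agent.Helper884.IC.Top, sub_smul, Finset.sum_sub_distrib]

lemma Top_smul {V : Type} [AddCommGroup V] [Module ℂ V] (rho : Representation ℂ G V) (c : ℂ)
    (f : G → ℂ) : TopR rho (c • f) = c • TopR rho f := by
  simp [TopR, Pool.Agent.Helper884.IC.Top, Finset.smul_sum, mul_smul]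

lemma char_one_ne {chi : G → ℂ} (h : IsIrrChar chi) : chi 1 ≠ 0 := by
  intro h0
  have h1 : B chi chi = 1 := by rw [B_irr h h, if_pos rfl]
  have h2 : B delta chi = 0 := by rw [B_delta, h0, mul_zero]
  obtain ⟨V, _, _, _, rho, hr, rfl⟩ := h
  haveI := hr
  have h3 : TopR rho delta = 0 := Top_zero_of_irr rho delta delta_class h2
  rw [Top_delta] at h3
  have h4 : ∀ v : V, v = 0 := fun v => by
    have := congrArg (fun T : V →ₗ[ℂ] V => T v) h3
    simpa using this
  have h5 : ∀ g, rho.character g = 0 := by
    intro g
    unfold Representation.character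
    have : rho g = 0 := by
      ext v
      rw [h4 (rho g v)]
      rfl
    rw [this, map_zero]
  have h6 : B rho.character rho.character = 0 := by
    unfold B
    simp [h5]
  rw [h6] at h1
  exact zero_ne_one h1

/-- `Top` of a class function on an irreducible representation is a scalar. -/
lemma Top_scalar {V : Type} [AddCommGroup V] [Module ℂ V] [FiniteDimensional ℂ V]
    (rho : Representation ℂ G V) [hirr : rho.IsIrreducible] (f : G → ℂ) (hf : IsClass f) :
    TopR rho f = ((Nat.card G : ℂ) * B f rho.character / rho.character 1) • LinearMap.id := by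
  have hchi : IsIrrChar rho.character := ⟨V, _, _, inferInstance, rho, hirr, rfl⟩
  have hcl := hchi.isClass
  have h1 : B rho.character rho.character = 1 := by rw [B_irr hchi hchi, if_pos rfl]
  have hne := char_one_ne hchi
  have sub_class : ∀ (a b : G → ℂ) (c : ℂ), IsClass a → IsClass b → IsClass (a - c • b) := by
    intro a b c ha hb g y
    simp only [Pi.sub_apply, Pi.smul_apply]
    rw [ha g y, hb g y]
  have hd : TopR rho (delta - ((Nat.card G : ℂ)⁻¹ * rho.character 1) • rho.character) = 0 := by
    apply Top_zero_of_irr rho _ (sub_class _ _ _ delta_class hcl)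
    rw [B_sub_left, B_smul_left, h1, B_delta, mul_one, sub_self]
  rw [Top_sub, Top_smul, Top_delta, sub_eq_zero] at hd
  have hff : TopR rho (f - B f rho.character • rho.character) = 0 := by
    apply Top_zero_of_irr rho _ (sub_class _ _ _ hf hcl)
    rw [B_sub_left, B_smul_left, h1, mul_one, sub_self]
  rw [Top_sub, Top_smul, sub_eq_zero] at hff
  have hG : (Nat.card G : ℂ) ≠ 0 := cardG_ne
  rw [hff, hd, smul_smul]
  congr 1
  field_simp

lemma Top_conv {V : Type} [AddCommGroup V] [Module ℂ V] (rho : Representation ℂ G V)
    (f h : G → ℂ) : TopR rho (conv f h) = TopR rho h * TopR rho f := by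
  unfold TopR Pool.Agent.Helper884.IC.Top conv
  rw [Finset.sum_mul_sum]
  simp only [Finset.sum_smul]
  rw [Finset.sum_comm]
  have e : ∀ g : G, ∑ k : G, (f g * h (g⁻¹ * k)) • rho k⁻¹ =
      ∑ k : G, (f g * h k) • rho (g * k)⁻¹ := by
    intro g
    refine (Fintype.sum_equiv (Equiv.mulLeft g) _ _ fun k => ?_).symm
    simp
  rw [Finset.sum_congr rfl fun g _ => e g, Finset.sum_comm]
  refine Finset.sum_congr rfl fun k _ => Finset.sum_congr rfl fun g _ => ?_
  rw [smul_mul_smul_comm, ← map_mul, mul_inv_rev, mul_comm (h k)]

lemma Top_trace {V : Type} [AddCommGroup V] [Module ℂ V] (rho : Representation ℂ G V)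
    (f : G → ℂ) : LinearMap.trace ℂ V (TopR rho f) = (Nat.card G : ℂ) * B f rho.character := by
  have hG : (Nat.card G : ℂ) ≠ 0 := cardG_ne
  unfold B
  rw [← mul_assoc, mul_inv_cancel₀ hG, one_mul]
  simp [TopR, Pool.Agent.Helper884.IC.Top, Representation.character]

theorem B_conv {f h chi : G → ℂ} (hf : IsClass f) (hh : IsClass h) (hchi : IsIrrChar chi) :
    B (conv f h) chi * chi 1 = (Nat.card G : ℂ) * (B f chi * B h chi) := by
  obtain ⟨V, _, _, _, rho, hr, rfl⟩ := id hchi
  haveI := hr
  have hne := char_one_ne hchi
  have hG : (Nat.card G : ℂ) ≠ 0 := cardG_ne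
  have h1 := Top_trace rho (conv f h)
  rw [Top_conv, Top_scalar rho f hf, Top_scalar rho h hh] at h1
  have h2 : LinearMap.trace ℂ V ((((Nat.card G : ℂ) * B h rho.character / rho.character 1) •
      (LinearMap.id : V →ₗ[ℂ] V)) * (((Nat.card G : ℂ) * B f rho.character / rho.character 1) •
      (LinearMap.id : V →ₗ[ℂ] V))) =
      ((Nat.card G : ℂ) * B h rho.character / rho.character 1) *
      ((Nat.card G : ℂ) * B f rho.character / rho.character 1) * rho.character 1 := by
    rw [smul_mul_smul_comm, map_smul, smul_eq_mul]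
    congr 1
    have : (LinearMap.id : V →ₗ[ℂ] V) * LinearMap.id = rho 1 := by
      rw [map_one]; rfl
    rw [this]
    rfl
  rw [h2] at h1
  field_simp at h1
  have h3 : (Nat.card G : ℂ) * (B (conv f h) rho.character * rho.character 1) =
      (Nat.card G : ℂ) * ((Nat.card G : ℂ) * (B f rho.character * B h rho.character)) := by
    linear_combination (-(Nat.card G : ℂ)) * h1
  exact mul_left_cancel₀ hG h3

end Pool.Agent.TH1.Andre
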